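import Pool.Agent.Lib.FOLFP.Lfp

namespace Pool.Agent.Lib.PolyTM

def Fml.dep {V W : Type} : Fml V W → ℕ
  | .arr _ _ => 0
  | .le _ _ => 0
  | .not φ => φ.dep
  | .and φ ψ => max φ.dep ψ.dep
  | .ex _ φ => φ.dep + 1

def Cond.dep {V W : Type} : Cond V W → ℕ
  | .fml φ => φ.dep
  | .more _ φ ψ => max φ.dep ψ.dep + 1

def Stmt.dep {V W : Type} : Stmt V W → ℕ
  | .wr _ _ φ => φ.dep
  | .seq s t => max s.dep t.dep
  | .ite c s t => max c.dep (max s.dep t.dep)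
  | .loop _ s => s.dep + 1
  | .emit φ => φ.dep
  | .skip => 0

end Pool.Agent.Lib.PolyTM
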