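import Pool.Agent.Lib.FOLFPd_h77.Def

/-! # Fixed points with a bound on the depth -/

namespace Pool.Agent.Lib.FOLFPd

open Pool.Agent.Lib.PolyTM Pool.Agent.Lib.FOLFP Function

set_option linter.unusedSectionVars false

theorem lfp_stepD {m : ℕ} {W : Type} [DecidableEq W] {ar : W → ℕ} {C : ℕ → Arr W → Prop} (w : W)
    {R : ℕ → Arr W → (Fin (ar w) → ℕ) → Prop} (h : DefD m ar C (Fin (ar w)) R)
    (hC : ∀ N M M', (∀ w' ≠ w, M' w' = M w') → C N M → C N M') :
    PDefD (m + 2 * ar w) (Sum.elim ar ar) (LfpSpec C w R) := by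
  obtain ⟨B, i1, i2, φ, ⟨h1, hm⟩, h2⟩ := h
  set U := Fin (ar w) ⊕ (Fin (ar w) ⊕ B) with hU
  set xs : List U := List.ofFn fun i => Sum.inr (Sum.inl i) with hxs
  set ys : List U := List.ofFn fun i => Sum.inl i with hys
  have hxsnd : xs.Nodup := by
    rw [hxs, List.nodup_ofFn]
    intro i j hij
    exact Sum.inl_injective (Sum.inr_injective hij)
  have hysnd : ys.Nodup := by
    rw [hys, List.nodup_ofFn]
    intro i j hij
    exact Sum.inl_injective hij
  have hxl : xs.length = ar w := by simp [hxs]
  have hyl : ys.length = ar w := by simp [hys]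
  have hmx : ∀ x, x ∈ xs ↔ ∃ i, x = Sum.inr (Sum.inl i) := by
    intro x
    rw [hxs, List.mem_ofFn']
    simp [Set.mem_range, eq_comm]
  have hmy : ∀ x, x ∈ ys ↔ ∃ i, x = Sum.inl i := by
    intro x
    rw [hys, List.mem_ofFn']
    simp [Set.mem_range, eq_comm]
  set ψ : Fml U (W ⊕ W) := ren Sum.inr Sum.inl φ with hψ
  set χ : Fml U (W ⊕ W) := (Fml.arr (Sum.inl w) xs).or ψ with hχ
  set s1 : Stmt U (W ⊕ W) := fill (Sum.inr w) xs χ with hs1
  set s2 : Stmt U (W ⊕ W) := fill (Sum.inl w) xs (.arr (Sum.inr w) xs) with hs2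
  refine ⟨U, inferInstance, inferInstance, loops ys (.seq s1 s2), ⟨?_, ?_⟩, ?_⟩
  · apply loops_wf ys [] hysnd (by simp)
    have hdis : ∀ x ∈ xs, x ∉ ys.reverse ++ [] := by
      intro x hx hc
      rw [List.append_nil, List.mem_reverse] at hc
      obtain ⟨i, rfl⟩ := (hmx x).1 hx
      obtain ⟨j, hj⟩ := (hmy _).1 hc
      simp at hj
    have hin : ∀ x ∈ xs, x ∈ xs.reverse ++ (ys.reverse ++ []) := by
      intro x hx
      simp [hx]
    have hWF : WFs (Sum.elim ar ar) {x | x ∈ xs.reverse ++ (ys.reverse ++ [])} ψ := by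
      have := h1.ren (f := (Sum.inr : _ → U)) Sum.inr_injective (g := Sum.inl)
        (ar' := Sum.elim ar ar) (fun _ => rfl)
      refine this.mono ?_ ?_
      · rintro _ ⟨_, ⟨i, rfl⟩, rfl⟩
        exact hin _ ((hmx _).2 ⟨i, rfl⟩)
      · intro x hx hc
        rw [bv_ren] at hx
        obtain ⟨y, hy, rfl⟩ := hx
        simp only [List.append_nil, List.mem_append, List.mem_reverse] at hc
        rcases hc with hc | hc
        · obtain ⟨i, hi⟩ := (hmx _).1 hc
          have : y = Sum.inl i := Sum.inr_injective hi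
          exact h1.not_mem_bv y hy ⟨i, this.symm⟩
        · obtain ⟨i, hi⟩ := (hmy _).1 hc
          simp at hi
    simp only [Stmt.wf, Bool.and_eq_true]
    constructor
    · apply loops_wf xs _ hxsnd hdis
      simp only [Stmt.wf, Bool.and_eq_true, decide_eq_true_eq, List.all_eq_true]
      refine ⟨⟨hxl, hin⟩, ?_⟩
      simp only [hχ, Fml.or, Fml.wf, Bool.and_eq_true, decide_eq_true_eq, List.all_eq_true]
      exact ⟨⟨hxl, hin⟩, wf_of_WFs hWF⟩
    · apply loops_wf xs _ hxsnd hdis
      simp only [Stmt.wf, Fml.wf, Bool.and_eq_true, decide_eq_true_eq, List.all_eq_true]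
      exact ⟨⟨hxl, hin⟩, ⟨hxl, hin⟩⟩
  · have hχd : χ.dep ≤ m := by
      rw [hχ, hψ]
      simp only [Fml.or, Fml.dep, dep_ren]
      omega
    rw [dep_loops, Stmt.dep, hs1, hs2, fill, fill, dep_loops, dep_loops, Stmt.dep, Stmt.dep, hxl,
      hyl]
    simp only [Fml.dep]
    omega
  · intro N e σ hCσ hσ
    set M0 : Arr W := fun w => σ.a (Sum.inl w) with hM0
    have hOK : ∀ d : Fin (ar w) → ℕ, (∀ i, d i < N) → OKt N xs.length (List.ofFn d) := by
      intro d hd
      refine ⟨by simp [hxl], fun t ht => ?_⟩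
      obtain ⟨i, rfl⟩ := (List.mem_ofFn' _ _).1 ht
      exact hd i
    have hOK' : ∀ ts, OKt N xs.length ts → ∃ d : Fin (ar w) → ℕ, (∀ i, d i < N) ∧
        ts = List.ofFn d := by
      intro ts hts
      have hl : ts.length = ar w := hts.1.trans hxl
      refine ⟨fun i => ts.get (i.cast hl.symm), fun i => hts.2 _ (List.get_mem _ _), ?_⟩
      apply List.ext_get
      · simp [hl]
      · intro i h1 h2
        simp
    have hupd : ∀ (e : U → ℕ) (d : Fin (ar w) → ℕ) (i : Fin (ar w)),
        upds e xs (List.ofFn d) (Sum.inr (Sum.inl i)) = d i := by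
      intro e d i
      have := upds_map e xs hxsnd (List.ofFn d) (by simp [hxl])
      rw [hxs, List.map_ofFn] at this
      exact congrFun (List.ofFn_injective this) i
    have hround : ∀ (e : U → ℕ) (ρ : AS (W ⊕ W)), C N (fun w => ρ.a (Sum.inl w)) →
        ((Stmt.seq s1 s2).run N e ρ).o = ρ.o ∧
        (fun w => ((Stmt.seq s1 s2).run N e ρ).a (Sum.inl w)) =
          rnd w R N (fun w => ρ.a (Sum.inl w)) := by
      intro e ρ hCρ
      have hu1 : (Sum.inr w : W ⊕ W) ∉ χ.uses := by
        rw [hχ, uses_or, List.mem_append]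
        rintro (hc | hc)
        · simp [Fml.uses] at hc
        · obtain ⟨w', hw'⟩ := uses_ren _ _ _ _ hc
          simp at hw'
      obtain ⟨f1, f2, f3⟩ := run_fill (N := N) (Sum.inr w) xs χ hxsnd hu1 e ρ
      have hu2 : (Sum.inl w : W ⊕ W) ∉ (Fml.arr (Sum.inr w) xs : Fml U (W ⊕ W)).uses := by
        simp [Fml.uses]
      obtain ⟨g1, g2, g3, g4⟩ := run_block (N := N) (Sum.inl w) [] xs
        (.arr (Sum.inr w) xs) hxsnd (by simp) hu2 e (s1.run N e ρ)
      simp only [List.map_nil, List.nil_append] at g1 g2 g3 g4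
      refine ⟨?_, ?_⟩
      · change (s2.run N e (s1.run N e ρ)).o = _
        exact g1.trans f1
      · change (fun w => (s2.run N e (s1.run N e ρ)).a (Sum.inl w)) = _
        funext w' l
        by_cases hw : w' = w
        · subst hw
          rw [Bool.eq_iff_iff, rnd_self]
          by_cases hl : OKt N xs.length l
          · obtain ⟨d, hd, rfl⟩ := hOK' l hl
            have e1 := g3 _ hl
            rw [Fml.eval_arr, upds_map e xs hxsnd _ (by simp [hxl]), f3 _ hl] at e1
            change (s2.run N e (s1.run N e ρ)).a (Sum.inl w') (List.ofFn d) = _ at e1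
            rw [e1, hχ, Fml.eval_or, Fml.eval_arr, upds_map e xs hxsnd _ (by simp [hxl]), hψ,
              eval_ren Sum.inr_injective, h2 N _ _ hCρ (by
                intro i
                change upds e xs (List.ofFn d) (Sum.inr (Sum.inl i)) < N
                rw [hupd]; exact hd i)]
            have e2 : (upds e xs (List.ofFn d) ∘ Sum.inr) ∘ Sum.inl = d := by
              funext i
              exact hupd e d i
            rw [e2]
            constructor
            · rintro (h | h)
              · exact Or.inl h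
              · exact Or.inr ⟨d, hd, rfl, h⟩
            · rintro (h | ⟨d', _, hdd, h⟩)
              · exact Or.inl h
              · rw [List.ofFn_injective hdd]
                exact Or.inr h
          · have e1 := g4 l (fun ts hts hc => hl (hc ▸ hts))
            change (s2.run N e (s1.run N e ρ)).a (Sum.inl w') l = _ at e1
            have e2 := congrFun (f2 (Sum.inl w') (by simp)) l
            change (s1.run N e ρ).a (Sum.inl w') l = _ at e2
            rw [e1, e2]
            constructor
            · exact Or.inl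
            · rintro (h | ⟨d, hd, hdd, _⟩)
              · exact h
              · exact absurd (hdd ▸ hOK d hd) hl
        · rw [rnd_of_ne _ hw]
          have e1 := congrFun (g2 (Sum.inl w') (by simpa using hw)) l
          have e2 := congrFun (f2 (Sum.inl w') (by simp)) l
          exact e1.trans e2
    have hCiter : ∀ r, C N ((rnd w R N)^[r] M0) := fun r =>
      hC N M0 _ (fun w' hw' => iter_of_ne M0 r hw') hCσ
    have hfin := run_loops_count (N := N) (xs := ys) (s := Stmt.seq s1 s2)
      (fun r ρ => ρ.o = σ.o ∧ (fun w => ρ.a (Sum.inl w)) = (rnd w R N)^[r] M0)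
      (by
        rintro r e ρ ⟨q1, q2⟩
        obtain ⟨p1, p2⟩ := hround e ρ (by rw [q2]; exact hCiter r)
        refine ⟨p1.trans q1, ?_⟩
        rw [p2, q2, Function.iterate_succ_apply'])
      (e := e) (σ := σ) (r := 0) ⟨rfl, rfl⟩
    rw [zero_add, hyl] at hfin
    set τ := (loops ys (Stmt.seq s1 s2)).run N e σ with hτ
    obtain ⟨q1, q2⟩ := hfin
    have q3 : ∀ w', τ.a (Sum.inl w') = (rnd w R N)^[N ^ ar w] M0 w' := fun w' => congrFun q2 w'
    refine ⟨q1, ?_, ?_, ?_⟩
    · intro w' hw'
      rw [q3, iter_of_ne _ _ hw']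
    · intro d hd hR
      rw [q2] at hR
      rw [q3, ← iter_fixed, rnd_self]
      exact Or.inr ⟨d, hd, rfl, hR⟩
    · intro P hP d hd hτd
      rw [q3] at hτd
      have key : ∀ r, ∀ d : Fin (ar w) → ℕ, (∀ i, d i < N) →
          (rnd w R N)^[r] M0 w (List.ofFn d) = true → P d := by
        intro r
        induction r with
        | zero =>
          intro d _ hd'
          have : M0 w (List.ofFn d) = false := hσ _
          rw [Function.iterate_zero, id_eq, this] at hd'
          exact absurd hd' (by simp)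
        | succ r ih =>
          intro d hd hd'
          rw [Function.iterate_succ_apply', rnd_self] at hd'
          rcases hd' with hd' | ⟨d', hd'', hdd, hR⟩
          · exact ih d hd hd'
          · have : d = d' := List.ofFn_injective hdd
            subst this
            refine hP _ ?_ ih d hd hR
            intro w' hw'
            rw [q3, iter_of_ne _ _ hw', iter_of_ne _ _ hw']
      exact key _ d hd hτd

end Pool.Agent.Lib.FOLFPd
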